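import Pool.Agent.Q28.ZO.TFin

/-!
# Properties of classes which are closed under generation
-/

open CategoryTheory AlgebraicGeometry Filter Topology

universe u w

namespace Pool.Agent.Q28.ZO

open Module
open Pool.Agent.H914 Pool.Agent.H914.VarClass Pool.Agent.H914.VarClass.Obj
  Pool.Agent.H914.WeilCohomology
open Pool.Agent.Y133.Half
open Pool.Agent.Y121 Pool.Agent.Y121.AH
open Pool.Agent.Q60.MT (Artin)
open Pool.Agent.Q55 (GaloisAction IsTate tatePred)
open Pool.Agent.Q57.DR (GrDeRham lift_drb)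
open Pool.Agent.Y133.Per

variable {k : Type u} [Field k] {𝒱 : VarClass k} {ops : CycleOps 𝒱}

/-- A property of rational classes which is stable under the usual operations, is detected by the
Lefschetz isomorphisms, and which passes from the classes `S` to all classes generated over `S`. -/
structure Conn (T : AH.HodgeTheory ops) where
  /-- the property -/
  R : ClassPred T.W
  lift : ∀ {X : 𝒱.Obj} {z : X.Cycles}, Polarises T.W T.pq X z → ∀ {j : ℕ}, 2 * j ≤ X.dim →
    ∀ {x : T.W.H X}, x ∈ T.W.gr X (2 * j) →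
      R.P X (X.dim - j) (T.W.cl X z ^ (X.dim - 2 * j) * x) → R.P X j x
  gen : ∀ {S Q : ClassPred T.W}, (∀ {X j x}, S.P X j x → R.P X j x) → ∀ {X P : 𝒱.Obj},
    GenBy S.sys Q.sys X P → ∀ {n j : ℕ} {c : T.W.H (pw X n)}, Q.P (pw X n) j c →
      R.P (pw X n) j c

variable {T : AH.HodgeTheory ops}

/-- Hodge classes. -/
noncomputable def connHodge (T : AH.HodgeTheory ops) : Conn T where
  R := hodgePred T
  lift := by
    intro X z hz j hj x hx h
    obtain ⟨y, hy, hyx⟩ := AH.lifts_hodge T X z hz j hj _ h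
    have h0 : y - x = 0 := by
      refine AH.hl_inj hz.2.1 (i := 2 * j) hj (Submodule.sub_mem _ hy.1 hx) ?_
      rw [mul_sub, hyx, sub_self]
    rw [← sub_eq_zero.1 h0]
    exact hy
  gen := by
    intro S Q hS X P hP n j c hc
    exact isHodge_of_fix (Q.gr hc) (fix_of_genBy (fun Z x hx => hodge_fix
      (ClassPred.sys_le (Q := S) (R := hodgePred T) hS Z hx)) hP
      (ClassPred.sp_of (Q := Q) hc) (Q.gr hc))

/-- Rational Tate classes. -/
noncomputable def connTate {W' : WeilCohomology.{u, 0} ops} {C : Artin T.W W'} {Γ : Type w}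
    [Group Γ] (hC : RespCl C) (G : GaloisAction W' Γ) : Conn T where
  R := rtPred hC G
  lift := by
    intro X z hz j hj x hx hv
    refine ⟨Artin.gr (C := C) hx, ?_⟩
    set m := X.dim - 2 * j with hm
    have hn : X.dim - j = m + j := by omega
    have hinj : ∀ y ∈ T.W.gr X (2 * j), T.W.cl X z ^ m * y = 0 → y = 0 := fun y hy h =>
      AH.hl_inj hz.2.1 hj hy h
    have hpow : IsTate G X (1 * m) (C.f X (T.W.cl X z ^ m)) :=
      AH.q_pow (Q := rtPred hC G) ((rtPred hC G).cl hz.1) m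
    obtain ⟨-, Δ, hΔ, h1⟩ := hpow
    obtain ⟨-, Δ', hΔ', h2⟩ := hv
    refine ⟨Δ ⊓ Δ', inferInstance, fun g hg hX => ?_⟩
    have h3 := h1 g hg.1 hX
    have h4 := h2 g hg.2 hX
    rw [map_mul, map_mul, h3, one_mul, smul_mul_assoc, hn, pow_add, mul_smul] at h4
    have h5 : (G.χ g : W'.K) ^ m ≠ 0 := pow_ne_zero _ (Units.ne_zero _)
    have h6 : C.f X (T.W.cl X z ^ m) * (G.ρ X).act g (C.f X x) =
        (G.χ g : W'.K) ^ j • (C.f X (T.W.cl X z ^ m) * C.f X x) :=
      smul_right_injective _ h5 h4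
    rw [← sub_eq_zero]
    apply mul_inj_C (C := C) hinj
    · exact Submodule.sub_mem _ ((G.isGalois X).gr_mem g hX _ _ (Artin.gr (C := C) hx))
        (Submodule.smul_mem _ _ (Artin.gr (C := C) hx))
    · rw [mul_sub, h6, mul_smul_comm, sub_self]
  gen := by
    intro S Q hS X P hP n j c hc
    exact rTate_of_genBy (rlC C) G (S := S) (Q := Q) (fun {X j x} h => hS h) hP hc

/-- De Rham-Betti classes. -/
noncomputable def connDRB {F : Subfield ℂ} (D : GrDeRham T.W F)
    (hF : ∀ x : ℂ, IsAlgebraic F x → x ∈ F) : Conn T where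
  R := drbPred D.toDeRham
  lift := by
    intro X z hz j hj x hx h
    exact lift_drb D hz.1 hz.2.1 hj hx h
  gen := by
    intro S Q hS X P hP n j c hc
    exact drb_of_genBy D hF (S := S) (Q := Q) (fun {X j c} h => hS h) hP hc

section Inf

variable {ι : Type*} (c : ι → Conn T)

/-- The Hodge classes with all properties of the family. -/
noncomputable def infPred : ClassPred T.W where
  P X j x := AH.IsHodge T X j x ∧ ∀ i, (c i).R.P X j x
  gr h := h.1.1
  zero := ⟨AH.IsHodge.zero, fun i => (c i).R.zero⟩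
  add ha hb := ⟨ha.1.add hb.1, fun i => (c i).R.add (ha.2 i) (hb.2 i)⟩
  smul r _ ha := ⟨ha.1.smul r, fun i => (c i).R.smul r (ha.2 i)⟩
  cl hz := ⟨AH.IsHodge.cl hz, fun i => (c i).R.cl hz⟩
  mul ha hb := ⟨ha.1.mul hb.1, fun i => (c i).R.mul (ha.2 i) (hb.2 i)⟩
  map f _ _ h := ⟨h.1.map f, fun i => (c i).R.map f (h.2 i)⟩
  push f _ _ hl _ h := ⟨h.1.push f hl, fun i => (c i).R.push f hl (h.2 i)⟩

lemma lifts_inf : AH.Lifts T (infPred c) := by
  intro X z hz j hj v hv
  obtain ⟨x, hx, hxv⟩ := AH.lifts_hodge T X z hz j hj v hv.1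
  refine ⟨x, ⟨hx, fun i => (c i).lift hz hj hx.1 ?_⟩, hxv⟩
  rw [hxv]
  exact hv.2 i

lemma inf_nondeg (X : 𝒱.Obj) : (infPred c).sys.Nondeg X := by
  intro x hx h
  exact AH.q_nondeg_sys (Q := infPred c) (fun {X j x} h => h.1) (lifts_inf c) hx h

lemma inf_tr (X : 𝒱.Obj) [Nontrivial (T.W.H X)] :
    ∃ l ∈ (infPred c).sys.C X, T.W.tr X l = 1 :=
  Pool.Agent.Q60.HD.exists_tr_sys (T := T) (X := X) (infPred c).sys
    (fun _ _ hz => ClassPred.sp_of (Q := infPred c) ((infPred c).cl hz))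

/-- **The general zero-one law.** -/
theorem inf_or (Q : ClassPred T.W) (hQ : ∀ {X j x}, (infPred c).P X j x → Q.P X j x)
    (X : 𝒱.Obj) [Nontrivial (T.W.H X)] :
    (∀ n j x, Q.P (pw X n) j x → (infPred c).P (pw X n) j x) ∨
      Tendsto (fun n => (dimBy T.W (infPred c).P (pw X n) : ℝ) / dimBy T.W Q.P (pw X n))
        atTop (𝓝 0) := by
  rcases gen_or (infPred c) Q hQ (X := X) (fun n => inf_nondeg c (pw X n)) (inf_tr c X) with ⟨P, hP⟩ | h
  · left
    intro n j x hx
    exact ⟨(connHodge T).gen (S := infPred c) (Q := Q) (fun {_ _ _} h => h.1) hP hx,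
      fun i => (c i).gen (S := infPred c) (Q := Q) (fun {_ _ _} h => h.2 i) hP hx⟩
  · exact Or.inr h

/-- The classes of cycles. -/
lemma inf_cyc (X : 𝒱.Obj) : cycRank ops X ≤ dimBy T.W (infPred c).P X := by
  rw [← numDim_eq_cycRank T.W]
  have h1 := (algSys T.W).a_add_num X
  have h2 : finrank T.W.K ((algSys T.W).C X) ≤ finrank T.W.K ((infPred c).sys.C X) :=
    Submodule.finrank_mono (ClassPred.alg_le (Q := infPred c))
  exact (by omega : (algSys T.W).a X ≤ finrank T.W.K ((infPred c).sys.C X))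

end Inf

end Pool.Agent.Q28.ZO
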