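import Pool.Agent.Y121.AHS.Defs
import Pool.Agent.Q60.MT.DefsA
import Pool.Agent.Q55.GaloisDefs

/-!
# Hodge classes, de Rham-Betti classes and Tate classes: compact definitions

In the intended use `k` is an algebraically closed field, the algebraic closure of a finitely
generated field, embedded in `ℂ`, `T` is the cohomology of the complex manifolds with rational
coefficients, `F` is the image of `k` in `ℂ`, and `dR X` is the algebraic de Rham cohomology of `X`
over `k`, as a subset of the cohomology with complex coefficients.
-/

open CategoryTheory AlgebraicGeometry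

universe u w v

namespace Pool.Agent.Q28.ZC

/-- The number `2 π i`. -/
noncomputable def per : ℂ := 2 * Real.pi * Complex.I

section DR

open Pool.Agent.Y121.AHS

variable {K A : Type} {Z : Type u} [Field K] [Ring A] [Algebra K A] [AddCommGroup Z] [Algebra K ℂ]

/-- The element `(2 π i) ^ j c` lies in `S`. -/
def InTw (S : Set (Ext K ℂ A)) (j : ℕ) (c : A) : Prop := extTw K ℂ per j (extEm K ℂ c) ∈ S

/-- The formal properties of the algebraic de Rham cohomology `S` of a variety of dimension `d`
with the orientation `t` and the classes `cl z` of the cycles `z` over the field `F`: a subspace over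
`F` of the cohomology with complex coefficients, which spans it over `ℂ`, is stable under products,
is the sum of its parts in the degrees `0`, …, `2 d`, on which the values of the orientation lie in
`(2 π i) ^ d F`, and which contains `(2 π i) ^ j cl z` for the cycles `z` of codimension `j`. -/
structure IsDR (F : Subfield ℂ) (gr : ℕ → Submodule K A) (d : ℕ) (t : A →ₗ[K] K)
    (cl : Z →+ A) (cyc : ℕ → Z → Prop) (S : Set (Ext K ℂ A)) : Prop where
  zero : 0 ∈ S
  add : ∀ a ∈ S, ∀ b ∈ S, a + b ∈ S
  smul : ∀ r ∈ F, ∀ a ∈ S, extSm K ℂ r a ∈ S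
  mul : ∀ a ∈ S, ∀ b ∈ S, extMul K ℂ a b ∈ S
  span : Submodule.span ℂ S = ⊤
  tr : ∀ a ∈ S, ∃ r ∈ F, extForm K ℂ t a = per ^ d * r
  graded : ∀ a ∈ S, ∃ f : ℕ → Ext K ℂ A, (∀ i, f i ∈ S ∧ f i ∈ extSub K ℂ (gr i)) ∧
    a = ∑ i ∈ Finset.range (2 * d + 1), f i
  scal : ∀ r : K, algebraMap K ℂ r ∈ F
  cls : ∀ j z, cyc j z → InTw S j (cl z)

/-- The element `c` is of degree `2 j` and `(2 π i) ^ j c` lies in `S`. -/
def InDR (gr : ℕ → Submodule K A) (S : Set (Ext K ℂ A)) (j : ℕ) (c : A) : Prop :=
  c ∈ gr (2 * j) ∧ InTw S j c

end DR

section Alg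

open Pool.Agent.Q55

variable {Γ : Type w} [Group Γ] {K : Type*} (L : Type*) {A B Z : Type*} [Field K] [Field L]
  [Ring A] [Ring B] [Algebra K A] [Algebra L B] [AddCommGroup Z]

/-- The element `c` is of degree `2 j` and is multiplied by `χ ^ j` by a subgroup of finite
index. -/
def IsTwisted (ρ : SubAction Γ K A) (χ : Γ →* Kˣ) (gr : ℕ → Submodule K A) (j : ℕ) (c : A) :
    Prop :=
  c ∈ gr (2 * j) ∧ Virtually (ρ.Twists χ j c)

/-- The map `f` sends the class `c z` to a nonzero multiple of the class `c' z`. -/
def MapsCycle (f : A →+* B) (c : Z →+ A) (c' : Z →+ B) (z : Z) : Prop :=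
  ∃ r : L, r ≠ 0 ∧ f (c z) = r • c' z

/-- The element `x` is a linear combination of the classes `c z` of the elements `z` with the
property `P`. -/
def InClasses (c : Z →+ B) (P : Z → Prop) (x : B) : Prop :=
  x ∈ Submodule.span L {y | ∃ z, P z ∧ c z = y}

/-- The image of `x` has the property `P`. -/
def Pull (f : A →+* B) (P : B → Prop) (x : A) : Prop := P (f x)

/-- The field `L` can be embedded into `ℂ`. -/
def Embeds : Prop := Nonempty (L →+* ℂ)

/-- The dimension of the space spanned by `S`. -/
noncomputable def rk (S : Set B) : ℕ := Set.finrank L S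

end Alg

/-- The dimension of the space spanned by the functions `f x`. -/
noncomputable def rkFun {α β : Type*} (f : α → β → ℚ) : ℕ :=
  Module.finrank ℚ (Submodule.span ℚ (Set.range f))

open Pool.Agent.H914 Pool.Agent.H914.VarClass Pool.Agent.H914.VarClass.Obj
  Pool.Agent.H914.WeilCohomology
open Pool.Agent.Y121.AHS (HodgeTheory IsHodge HL mapL)
open Pool.Agent.Q55 (GaloisAction)
open Pool.Agent.Q60.MT (IsGradedExtension Commutes InSpan)

variable {k : Type u} [Field k] {𝒱 : VarClass k} {ops : CycleOps 𝒱}

/-- Properties of classes of codimension `j` on `X`. -/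
abbrev Cls (W : WeilCohomology.{u, 0} ops) := ∀ X : 𝒱.Obj, ℕ → W.H X → Prop

section W

variable {W : WeilCohomology.{u, 0} ops}

/-- The dimension of the space spanned by the classes with the property `P`. -/
noncomputable def dimP (P : Cls W) (X : 𝒱.Obj) : ℕ := rk W.K {c | ∃ j, P X j c}

variable (W) in
/-- The class `c` is a linear combination of classes of algebraic cycles of codimension `j`. -/
def IsAlg : Cls W := fun X j c => InClasses W.K (W.cl X) (X.IsCyc j) c

/-- All classes on `X` with the property `P` are linear combinations of classes of cycles. -/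
def AllAlg (P : Cls W) (X : 𝒱.Obj) : Prop := ∀ j c, P X j c → IsAlg W X j c

end W

/-- The dimension of the space of the cycles of codimension `j` on `X` with rational coefficients
modulo numerical equivalence. -/
noncomputable def numRk (ops : CycleOps 𝒱) (X : 𝒱.Obj) (j : ℕ) : ℕ :=
  rkFun fun (z : {z : X.Cycles // X.IsCyc j z}) (w : {w : X.Cycles // X.IsCyc (X.dim - j) w}) =>
    X.V.degCycle (ops.mul z.1 w.1)

/-- The dimension of the space of the cycles of all codimensions on `X` with rational coefficients
modulo numerical equivalence. -/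
noncomputable def cycRk (ops : CycleOps 𝒱) (X : 𝒱.Obj) : ℕ :=
  ∑ j ∈ Finset.range (X.dim + 1), numRk ops X j

/-- The cycles on `X` modulo numerical equivalence and the space spanned by their classes in
cohomology have the same dimension, that is, homological and numerical equivalence agree on `X`. -/
def HomNum (W : WeilCohomology.{u, 0} ops) (X : 𝒱.Obj) : Prop := cycRk ops X = dimP (IsAlg W) X

/-- A de Rham structure on the Hodge theory `T`, over the subfield `F` of `ℂ`: for each variety `X` a
subset `dR X` of the cohomology with complex coefficients with the formal properties of de Rham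
cohomology, stable under pull-backs. -/
structure DRStr (T : HodgeTheory ops) (F : Subfield ℂ) where
  /-- the de Rham cohomology -/
  dR : ∀ X : 𝒱.Obj, Set (HL T.W ℂ X)
  form : ∀ X, IsDR F (T.W.gr X) X.dim (T.W.tr X) (T.W.cl X) X.IsCyc (dR X)
  map : ∀ (X Y : 𝒱.Obj) (f : X ⟶ Y), ∀ a ∈ dR Y, mapL f a ∈ dR X

/-- An `l`-adic theory over the Weil cohomology `W₀`: a Weil cohomology `W` whose coefficients embed
into `ℂ`, ring homomorphisms `f` from the cohomology `W₀` to `W`, which respect degrees and
pull-backs, become isomorphisms after extension of the coefficients and respect the classes of cycles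
up to nonzero factors, and a Galois action on `W`. -/
structure Ladic (W₀ : WeilCohomology.{u, 0} ops) where
  /-- the `l`-adic cohomology -/
  W : WeilCohomology.{u, 0} ops
  emb : Embeds W.K
  /-- the comparison maps -/
  f : ∀ X : 𝒱.Obj, W₀.H X →+* W.H X
  iso : ∀ X, IsGradedExtension (f X) (W₀.gr X) (W.gr X)
  nat : ∀ (X Y : 𝒱.Obj) (g : X ⟶ Y), Commutes (f X) (f Y) (W₀.map g) (W.map g)
  cyc : ∀ X j z, X.IsCyc j z → MapsCycle W.K (f X) (W₀.cl X) (W.cl X) z
  /-- the Galois group -/
  Γ : Type w
  [grp : Group Γ]
  /-- the Galois action -/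
  G : GaloisAction W Γ

attribute [instance] Ladic.grp

variable {T : HodgeTheory ops} {F : Subfield ℂ} {ι : Type v}

/-- The de Rham-Betti classes of codimension `j`: the classes `c` in `H^(2 j)(X)` such that
`(2 π i) ^ j c` lies in the de Rham cohomology. -/
def IsDRB (D : DRStr T F) : Cls T.W := fun X j c => InDR (T.W.gr X) (D.dR X) j c

/-- The Tate classes of the theory `L`: the classes in `H^(2 j)(X)` which are fixed, up to the twist,
by a subgroup of finite index of the Galois group. -/
def IsTate {W₀ : WeilCohomology.{u, 0} ops} (L : Ladic.{u, w} W₀) : Cls L.W := fun X j c =>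
  IsTwisted (L.G.ρ X) L.G.χ (L.W.gr X) j c

/-- The common classes: the classes in rational cohomology which are Hodge classes, de Rham-Betti
classes, and whose images in all theories of the family `L` are Tate classes. -/
def IsCommon (D : DRStr T F) (L : ι → Ladic.{u, w} T.W) : Cls T.W := fun X j c =>
  IsHodge T X j c ∧ IsDRB D X j c ∧ ∀ i, Pull ((L i).f X) (IsTate (L i) X j) c

/-- All classes on `X` with the property `P` are common classes. -/
def AllCommon (D : DRStr T F) (L : ι → Ladic.{u, w} T.W) (P : Cls T.W) (X : 𝒱.Obj) : Prop :=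
  ∀ j c, P X j c → IsCommon D L X j c

/-- All Tate classes of the theory `L i` on `X` are linear combinations of images of common
classes. -/
def FromCommon (D : DRStr T F) (L : ι → Ladic.{u, w} T.W) (i : ι) (X : 𝒱.Obj) : Prop :=
  ∀ j c, IsTate (L i) X j c → InSpan (L i).W.K ((L i).f X) (IsCommon D L X j) c

end Pool.Agent.Q28.ZC
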