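import Pool.Agent.Q28.ZU.Main
import Pool.Agent.Q28.ZU.SDefs

/-!
# Conversions
-/

open CategoryTheory AlgebraicGeometry Filter Topology

universe u w v

namespace Pool.Agent.Q28.ZC

open Module
open Pool.Agent.H914 Pool.Agent.H914.VarClass Pool.Agent.H914.VarClass.Obj
  Pool.Agent.H914.WeilCohomology
open Pool.Agent.Y121.AHS (HodgeTheory IsHodge RatioToZero)
open Pool.Agent.Y133.Half (pw)

variable {k : Type u} [Field k] {𝒱 : VarClass k} {ops : CycleOps 𝒱}

variable {T : HodgeTheory ops} {F : Subfield ℂ} {ι : Type v}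

/-- The conversion of de Rham structures. -/
def toD (D : DRStr T F) (X₀ : 𝒱.Obj) : Pool.Agent.Q57.DS.DRStr T F where
  dR := D.dR
  form X :=
    { zero := (D.form X).zero
      add := (D.form X).add
      smul := (D.form X).smul
      mul := (D.form X).mul
      span := (D.form X).span
      tr := (D.form X).tr
      graded := (D.form X).graded }
  scal := (D.form X₀).scal
  cyc X := (D.form X).cls
  map := D.map

/-- The conversion of the theories. -/
def toL (L : Ladic.{u, w} T.W) : Pool.Agent.Q28.ZU.Ladic.{u, w} T where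
  W := L.W
  C := ⟨L.f, L.iso, L.nat⟩
  cyc := L.cyc
  Γ := L.Γ
  G := L.G
  emb := L.emb

lemma homNum_iff (X : 𝒱.Obj) (h : Pool.Agent.Q28.ZU.HomNum T X) : HomNum T.W X := by
  have h1 := (Pool.Agent.Y133.Half.homEqNum_iff' (W := T.W) X).1 h
  have h2 : Module.finrank T.W.K (Pool.Agent.H281R3.HT.algSpan T.W X) = dimP (IsAlg T.W) X := by
    have h3 : Pool.Agent.H281R3.HT.algSpan T.W X =
        Submodule.span T.W.K {c | ∃ j, IsAlg T.W X j c} := by
      apply le_antisymm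
      · refine Submodule.span_mono ?_
        intro x hx
        obtain ⟨j, z, hz, rfl⟩ := Set.mem_iUnion.1 hx
        exact ⟨j, Submodule.subset_span ⟨z, hz, rfl⟩⟩
      · rw [Submodule.span_le]
        rintro x ⟨j, hx⟩
        refine (Submodule.span_mono ?_ : _ ≤ _) hx
        rintro _ ⟨z, hz, rfl⟩
        exact Set.mem_iUnion.2 ⟨j, z, hz, rfl⟩
    rw [h3]
    rfl
  exact h1.trans h2

variable (D : DRStr T F) (hF : ∀ x : ℂ, IsAlgebraic F x → x ∈ F) (L : ι → Ladic.{u, w} T.W)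
  (X : 𝒱.Obj) [Nontrivial (T.W.H X)]

include hF

theorem drb_final :
    ((∀ n, AllCommon D L (IsDRB D) (pw X n)) ∨
      RatioToZero (fun n => dimP (IsCommon D L) (pw X n)) fun n => dimP (IsDRB D) (pw X n)) ∧
    ((∀ n, HomNum T.W (pw X n) ∧ AllCommon D L (IsDRB D) (pw X n) ∧
        (AllAlg (IsHodge T) (pw X n) → AllAlg (IsDRB D) (pw X n)) ∧
        ∀ i, AllAlg (IsTate (L i)) (pw X n) → AllAlg (IsDRB D) (pw X n)) ∨
      RatioToZero (fun n => cycRk ops (pw X n)) fun n => dimP (IsDRB D) (pw X n)) ∧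
    ((∀ n, (AllAlg (IsHodge T) (pw X n) ↔ AllAlg (IsDRB D) (pw X n)) ∧
        ∀ i, (AllAlg (IsTate (L i)) (pw X n) ↔ AllAlg (IsDRB D) (pw X n))) ∨
      RatioToZero (fun n => cycRk ops (pw X n)) (fun n => dimP (IsDRB D) (pw X n)) ∨
      RatioToZero (fun n => cycRk ops (pw X n)) (fun n => dimP (IsHodge T) (pw X n)) ∨
      ∃ i, RatioToZero (fun n => cycRk ops (pw X n)) fun n => dimP (IsTate (L i)) (pw X n)) := by
  obtain ⟨h1, h2, h3⟩ := Pool.Agent.Q28.ZU.drb_main (toD D X) hF (fun i => toL (L i)) X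
  refine ⟨h1, ?_, h3⟩
  rcases h2 with h2 | h2
  · exact Or.inl fun n => ⟨homNum_iff _ (h2 n).1, (h2 n).2⟩
  · exact Or.inr h2

theorem tate_final (i : ι) :
    ((∀ n, FromCommon D L i (pw X n)) ∨
      RatioToZero (fun n => dimP (IsCommon D L) (pw X n)) fun n => dimP (IsTate (L i)) (pw X n)) ∧
    ((∀ n, HomNum T.W (pw X n) ∧ FromCommon D L i (pw X n) ∧
        (AllAlg (IsHodge T) (pw X n) → AllAlg (IsTate (L i)) (pw X n)) ∧
        (AllAlg (IsDRB D) (pw X n) → AllAlg (IsTate (L i)) (pw X n)) ∧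
        ∀ i', AllAlg (IsTate (L i')) (pw X n) → AllAlg (IsTate (L i)) (pw X n)) ∨
      RatioToZero (fun n => cycRk ops (pw X n)) fun n => dimP (IsTate (L i)) (pw X n)) ∧
    ∀ i', (∀ n, dimP (IsTate (L i)) (pw X n) = dimP (IsTate (L i')) (pw X n) ∧
        (AllAlg (IsTate (L i)) (pw X n) ↔ AllAlg (IsTate (L i')) (pw X n))) ∨
      RatioToZero (fun n => cycRk ops (pw X n)) (fun n => dimP (IsTate (L i)) (pw X n)) ∨
      RatioToZero (fun n => cycRk ops (pw X n)) fun n => dimP (IsTate (L i')) (pw X n) := by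
  obtain ⟨h1, h2, h3⟩ := Pool.Agent.Q28.ZU.tate_main (toD D X) hF (fun i => toL (L i)) X i
  refine ⟨h1, ?_, h3⟩
  rcases h2 with h2 | h2
  · exact Or.inl fun n => ⟨homNum_iff _ (h2 n).1, (h2 n).2⟩
  · exact Or.inr h2

end Pool.Agent.Q28.ZC
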