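import Pool.Agent.Q28.ZU.SDefs

/-!
# Classes of one codimension: definitions
-/

open CategoryTheory AlgebraicGeometry

universe u w

namespace Pool.Agent.Q28.ZC

open Pool.Agent.H914 Pool.Agent.H914.VarClass Pool.Agent.H914.VarClass.Obj
  Pool.Agent.H914.WeilCohomology
open Pool.Agent.Y121.AHS (HodgeTheory IsHodge)

variable {k : Type u} [Field k] {𝒱 : VarClass k} {ops : CycleOps 𝒱}

/-- All classes of codimension `j` on `X` with the property `P` are linear combinations of classes of
cycles. -/
def AlgIn {W : WeilCohomology.{u, 0} ops} (P : Cls W) (X : 𝒱.Obj) (j : ℕ) : Prop :=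
  ∀ c, P X j c → IsAlg W X j c

/-- The rational classes which are Hodge classes and whose images in the theory `L` are Tate
classes. -/
def IsHT {T : HodgeTheory ops} (L : Ladic.{u, w} T.W) : Cls T.W := fun X j c =>
  IsHodge T X j c ∧ Pull (L.f X) (IsTate L X j) c

/-- The Tate conjecture for the theory `L` in codimension one and, if the dimension is at least two,
for classes of curves. -/
def TateDivisorsCurves {W₀ : WeilCohomology.{u, 0} ops} (L : Ladic.{u, w} W₀) (X : 𝒱.Obj) :
    Prop :=
  AlgIn (IsTate L) X 1 ∧ (2 ≤ X.dim → AlgIn (IsTate L) X (X.dim - 1))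

end Pool.Agent.Q28.ZC
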