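import Pool.Agent.Q28.ZU.Div
import Pool.Agent.Q28.ZU.Conv
import Pool.Agent.Q28.ZU.SDefs2

/-!
# The zero-one law for Tate classes of codimension one: conversion
-/

open CategoryTheory AlgebraicGeometry Filter Topology

universe u w

namespace Pool.Agent.Q28.ZC

open Pool.Agent.H914 Pool.Agent.H914.VarClass Pool.Agent.H914.VarClass.Obj
  Pool.Agent.H914.WeilCohomology
open Pool.Agent.Y121.AHS (HodgeTheory IsHodge RatioToZero)
open Pool.Agent.Y133.Half (pw)

variable {k : Type u} [Field k] {𝒱 : VarClass k} {ops : CycleOps 𝒱}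

theorem div_final {T : HodgeTheory ops} (h11 : ∀ Y : 𝒱.Obj, AlgIn (IsHodge T) Y 1)
    (L : Ladic.{u, w} T.W) (X : 𝒱.Obj) [Nontrivial (T.W.H X)] :
    ((∀ n, TateDivisorsCurves L (pw X n)) ∨
      RatioToZero (fun n => dimP (IsHT L) (pw X n)) fun n => dimP (IsTate L) (pw X n)) ∧
    ((∀ n, TateDivisorsCurves L (pw X n)) ∨
      RatioToZero (fun n => cycRk ops (pw X n)) fun n => dimP (IsTate L) (pw X n)) :=
  Pool.Agent.Q28.ZU.div_main (toL L) h11 X

end Pool.Agent.Q28.ZC
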