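import Pool.Agent.Q28.ZO.TDefs

/-!
# Classes which are Hodge classes, de Rham-Betti classes and Tate classes: definitions
-/

open CategoryTheory AlgebraicGeometry

universe u w v

namespace Pool.Agent.Q28.ZU

open Pool.Agent.H914 Pool.Agent.H914.VarClass Pool.Agent.H914.VarClass.Obj
  Pool.Agent.H914.WeilCohomology
open Pool.Agent.Y121.AHS (HodgeTheory IsHodge)
open Pool.Agent.Q55 (GaloisAction IsTate)
open Pool.Agent.Q60.MT (Artin InSpan)
open Pool.Agent.Q57.DS (Cls IsAlg DRStr IsDRB)
open Pool.Agent.Q28.ZO (RespectsCycles)

variable {k : Type u} [Field k] {𝒱 : VarClass k} {ops : CycleOps 𝒱}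

/-- An `l`-adic theory over the Hodge theory `T`: a Weil cohomology `W` whose coefficients embed
into `ℂ`, with a Galois action, and comparison maps from the rational cohomology of `T`, which become
isomorphisms after extension of the coefficients and respect the classes of cycles up to nonzero
factors. -/
structure Ladic (T : HodgeTheory ops) where
  /-- the `l`-adic cohomology -/
  W : WeilCohomology.{u, 0} ops
  /-- the comparison maps -/
  C : Artin T.W W
  cyc : RespectsCycles C
  /-- the Galois group -/
  Γ : Type w
  [grp : Group Γ]
  /-- the Galois action -/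
  G : GaloisAction W Γ
  emb : Nonempty (W.K →+* ℂ)

attribute [instance] Ladic.grp

variable {T : HodgeTheory ops} {F : Subfield ℂ} {ι : Type v}

/-- The Tate classes of the theory `L`. -/
def Tat (L : Ladic.{u, w} T) : Cls L.W := IsTate L.G

/-- The common classes: the classes in rational cohomology which are Hodge classes, de Rham-Betti
classes, and whose images in all theories of the family `L` are Tate classes. -/
def IsCommon (D : DRStr T F) (L : ι → Ladic.{u, w} T) : Cls T.W := fun X j c =>
  IsHodge T X j c ∧ IsDRB D X j c ∧ ∀ i, IsTate (L i).G X j ((L i).C.f X c)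

/-- All classes on `X` with the property `P` are common classes. -/
def AreCommon (D : DRStr T F) (L : ι → Ladic.{u, w} T) (P : Cls T.W) (X : 𝒱.Obj) : Prop :=
  ∀ j c, P X j c → IsCommon D L X j c

/-- All Tate classes of the theory `L i` on `X` are linear combinations of images of common
classes. -/
def TateFromCommon (D : DRStr T F) (L : ι → Ladic.{u, w} T) (i : ι) (X : 𝒱.Obj) : Prop :=
  ∀ j c, IsTate (L i).G X j c → InSpan (L i).W.K ((L i).C.f X) (IsCommon D L X j) c

/-- The statement that all de Rham-Betti classes on `X` are linear combinations of classes of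
cycles. -/
def DRBConj (D : DRStr T F) (X : 𝒱.Obj) : Prop :=
  ∀ j c, IsDRB D X j c → IsAlg T.W X j c

/-- Homological and numerical equivalence agree on `X`: a cycle all of whose intersection numbers
with cycles of the complementary codimension vanish is homologically equivalent to zero. -/
def HomNum (T : HodgeTheory ops) (X : 𝒱.Obj) : Prop :=
  ∀ j ≤ X.dim, ∀ z, X.IsCyc j z →
    (∀ w, X.IsCyc (X.dim - j) w → X.V.degCycle (ops.mul z w) = 0) → T.W.cl X z = 0

end Pool.Agent.Q28.ZU
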