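import Pool.Agent.Q28.ZU.Main
import Pool.Agent.Y133.Half.TateSS

/-!
# The zero-one law for Tate classes of codimension one
-/

open CategoryTheory AlgebraicGeometry Filter Topology

universe u w v

namespace Pool.Agent.Q28.ZU

open Module
open Pool.Agent.H914 Pool.Agent.H914.VarClass Pool.Agent.H914.VarClass.Obj
  Pool.Agent.H914.WeilCohomology
open Pool.Agent.Y121.AHS (HodgeTheory IsHodge RatioToZero)
open Pool.Agent.Y121 Pool.Agent.Y121.AHS
open Pool.Agent.Y133.Half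
open Pool.Agent.Q55 (GaloisAction IsTate)
open Pool.Agent.Q60.MT (Artin)
open Pool.Agent.Q57.DS (Cls IsAlg DRStr IsDRB dimP cycRk toGr drb_fun isAlg_iff)
open Pool.Agent.Q28.ZO

variable {k : Type u} [Field k] {𝒱 : VarClass k} {ops : CycleOps 𝒱}

variable {T : HodgeTheory ops} (L : Ladic.{u, w} T)

/-- The classes on `X` of codimension `j` with the property `P` are algebraic. -/
def AlgIn {W : WeilCohomology.{u, 0} ops} (P : Cls W) (X : 𝒱.Obj) (j : ℕ) : Prop :=
  ∀ c, P X j c → IsAlg W X j c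

/-- The HT classes of codimension `dim X - j` are multiples of HT classes of codimension `j`. -/
lemma ht_curves {X : 𝒱.Obj} {j : ℕ} (hj : 2 * j ≤ X.dim)
    (h : AlgIn (W := T.W) (IsHT L.C L.G) X j) :
    AlgIn (W := T.W) (IsHT L.C L.G) X (X.dim - j) := by
  intro v hv
  obtain ⟨D, hD⟩ := (toH T).dec.polar X
  obtain ⟨x, hx, hxv⟩ : ∃ x : T.W.H X, IsHT L.C L.G X j x ∧
      T.W.cl X D ^ (X.dim - 2 * j) * x = v :=
    lifts_ht (T := toH T) (C := L.C) L.cyc L.G X D hD j hj v hv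
  have h1 : x ∈ (algSys T.W).C X := by
    have h0 : x ∈ Submodule.span T.W.K {y | ∃ z, X.IsCyc j z ∧ T.W.cl X z = y} := h x hx
    refine (Submodule.span_mono ?_ : _ ≤ _) h0
    rintro _ ⟨z, hz, rfl⟩
    exact Set.mem_iUnion.2 ⟨j, z, hz, rfl⟩
  have h2 : T.W.cl X D ∈ (algSys T.W).C X :=
    Submodule.subset_span (Set.mem_iUnion.2 ⟨1, D, hD.1, rfl⟩)
  have h3 : ∀ m, T.W.cl X D ^ m ∈ (algSys T.W).C X := by
    intro m
    induction m with
    | zero => rw [pow_zero]; exact (algSys T.W).one X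
    | succ m ih => rw [pow_succ]; exact (algSys T.W).mul ih h2
  have h4 : v ∈ (algSys T.W).C X := by
    rw [← hxv]
    exact (algSys T.W).mul (h3 _) h1
  exact isAlg_iff.2 (spanCycles_of_algSpan h4 hv.1.1)

/-- Tate classes which are combinations of HT classes are algebraic if the HT classes are. -/
lemma tate_alg_in {X : 𝒱.Obj} (h : TateAreHT L.C L.G X) {j : ℕ}
    (h' : AlgIn (W := T.W) (IsHT L.C L.G) X j) : AlgIn (W := L.W) (IsTate L.G) X j := by
  intro c hc
  have h1 := h j c hc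
  change c ∈ Submodule.span L.W.K {x | ∃ z, X.IsCyc j z ∧ L.W.cl X z = x}
  rw [← span_cyc (T := toH T) (C := L.C) L.cyc]
  exact (Submodule.span_mono (Set.image_mono fun x hx => h' x hx) : _ ≤ _) h1

/-- **The zero-one law for Tate classes of codimension one.** -/
theorem div_main (h11 : ∀ Y : 𝒱.Obj, AlgIn (W := T.W) (IsHodge T) Y 1) (X : 𝒱.Obj)
    [Nontrivial (T.W.H X)] :
    ((∀ n, AlgIn (W := L.W) (IsTate L.G) (pw X n) 1 ∧ (2 ≤ (pw X n).dim →
        AlgIn (W := L.W) (IsTate L.G) (pw X n) ((pw X n).dim - 1))) ∨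
      RatioToZero (fun n => dimP (IsHT L.C L.G) (pw X n)) fun n => dimP (IsTate L.G) (pw X n)) ∧
    ((∀ n, AlgIn (W := L.W) (IsTate L.G) (pw X n) 1 ∧ (2 ≤ (pw X n).dim →
        AlgIn (W := L.W) (IsTate L.G) (pw X n) ((pw X n).dim - 1))) ∨
      RatioToZero (fun n => cycRk ops (pw X n)) fun n => dimP (IsTate L.G) (pw X n)) := by
  obtain ⟨τ⟩ := L.emb
  rcases t_law L.cyc L.G X τ with h | h
  · have key : ∀ n, AlgIn (W := L.W) (IsTate L.G) (pw X n) 1 ∧ (2 ≤ (pw X n).dim →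
        AlgIn (W := L.W) (IsTate L.G) (pw X n) ((pw X n).dim - 1)) := by
      intro n
      have h1 : AlgIn (W := T.W) (IsHT L.C L.G) (pw X n) 1 := fun c hc => h11 _ c hc.1
      exact ⟨tate_alg_in L (h n) h1, fun h2 => tate_alg_in L (h n) (ht_curves L (by omega) h1)⟩
    exact ⟨Or.inl key, Or.inl key⟩
  · exact ⟨Or.inr h, Or.inr (cyc_law L.cyc L.G X h)⟩

end Pool.Agent.Q28.ZU
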