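import Pool.Agent.Q28.ZU.Conn
import Pool.Agent.Q28.ZU.Defs

/-!
# The laws for common classes
-/

open CategoryTheory AlgebraicGeometry Filter Topology

universe u w v

namespace Pool.Agent.Q28.ZU

open Module
open Pool.Agent.H914 Pool.Agent.H914.VarClass Pool.Agent.H914.VarClass.Obj
  Pool.Agent.H914.WeilCohomology
open Pool.Agent.Y121.AHS (HodgeTheory IsHodge RatioToZero)
open Pool.Agent.Y121 Pool.Agent.Y121.AHS
open Pool.Agent.Y133.Half
open Pool.Agent.Y133.Per (drbPred)
open Pool.Agent.Q55 (GaloisAction IsTate)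
open Pool.Agent.Q60.MT (Artin)
open Pool.Agent.Q57.DS (Cls IsAlg DRStr IsDRB dimP cycRk toGr drb_fun)
open Pool.Agent.Q28.ZO

variable {k : Type u} [Field k] {𝒱 : VarClass k} {ops : CycleOps 𝒱}

variable {T : HodgeTheory ops} {F : Subfield ℂ} {ι : Type v}

/-- The family of the properties. -/
noncomputable def fam (D : DRStr T F) (hF : ∀ x : ℂ, IsAlgebraic F x → x ∈ F)
    (L : ι → Ladic.{u, w} T) : Option ι → Conn (toH T)
  | none => connDRB (T := toH T) (toGr D) hF
  | some i => connTate (T := toH T) (C := (L i).C) (L i).cyc (L i).G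

variable (D : DRStr T F) (hF : ∀ x : ℂ, IsAlgebraic F x → x ∈ F) (L : ι → Ladic.{u, w} T)

/-- The common classes as a property of classes. -/
noncomputable def comP : ClassPred T.W := infPred (fam D hF L)

lemma comP_P : (comP D hF L).P = IsCommon D L := by
  funext X j x
  have h : (comP D hF L).P X j x = (AH.IsHodge (toH T) X j x ∧
    ∀ o, (fam D hF L o).R.P X j x) := rfl
  rw [h, IsCommon, drb_fun]
  refine propext (and_congr Iff.rfl ?_)
  rw [Option.forall]
  exact Iff.rfl

include hF

theorem common_or (Q : ClassPred T.W) (hQ : ∀ {X j x}, IsCommon D L X j x → Q.P X j x)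
    (X : 𝒱.Obj) [Nontrivial (T.W.H X)] : (∀ n, AreCommon D L Q.P (pw X n)) ∨
      RatioToZero (fun n => dimP (IsCommon D L) (pw X n)) fun n => dimP Q.P (pw X n) := by
  have hX : Nontrivial ((toH T).W.H X) := inferInstanceAs (Nontrivial (T.W.H X))
  rw [← comP_P D hF L] at *
  unfold AreCommon
  rw [← comP_P D hF L]
  exact inf_or (T := toH T) (fam D hF L) Q hQ X

theorem drb_common (X : 𝒱.Obj) [Nontrivial (T.W.H X)] :
    (∀ n, AreCommon D L (IsDRB D) (pw X n)) ∨
      RatioToZero (fun n => dimP (IsCommon D L) (pw X n)) fun n => dimP (IsDRB D) (pw X n) := by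
  have h := common_or D hF L (drbPred (toGr D).toDeRham) (fun {X j x} h => by
    have h1 := h.2.1
    rw [drb_fun] at h1
    exact h1) X
  rw [drb_fun]
  exact h

theorem hodge_common (X : 𝒱.Obj) [Nontrivial (T.W.H X)] :
    (∀ n, AreCommon D L (IsHodge T) (pw X n)) ∨
      RatioToZero (fun n => dimP (IsCommon D L) (pw X n)) fun n => dimP (IsHodge T) (pw X n) :=
  common_or D hF L (AH.hodgePred (toH T)) (fun {_ _ _} h => h.1) X

theorem ht_common (i : ι) (X : 𝒱.Obj) [Nontrivial (T.W.H X)] :
    (∀ n, AreCommon D L (IsHT (L i).C (L i).G) (pw X n)) ∨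
      RatioToZero (fun n => dimP (IsCommon D L) (pw X n))
        fun n => dimP (IsHT (L i).C (L i).G) (pw X n) :=
  common_or D hF L (htP (L i).cyc (L i).G) (fun {_ _ _} h => ⟨h.1, h.2.2 i⟩) X

omit hF in
/-- The dimension of the space of the HT classes is at most that of the Tate classes. -/
lemma ht_le_tate (i : ι) (X : 𝒱.Obj) :
    dimP (IsHT (L i).C (L i).G) X ≤ dimP (IsTate (L i).G) X := by
  have h1 := spanPred_dim (T := toH T) (C := (L i).C) (S := htP (L i).cyc (L i).G)
    (hC := (L i).cyc) X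
  have h2 : dimBy (L i).W (spanPred (T := toH T) (L i).C (L i).cyc (htP (L i).cyc (L i).G)).P X ≤
      dimBy (L i).W (IsTate (L i).G) X := by
    refine Submodule.finrank_mono (Submodule.span_mono ?_)
    rintro c ⟨j, hc⟩
    refine ⟨j, ?_⟩
    have hc' : c ∈ Submodule.span (L i).W.K ((L i).C.f X '' {x | IsHT (L i).C (L i).G X j x}) := hc
    induction hc' using Submodule.span_induction with
    | mem x hx => obtain ⟨x, hx, rfl⟩ := hx; exact hx.2
    | zero => exact (Pool.Agent.Q55.tatePred (L i).G).zero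
    | add u v _ _ h1 h2 => exact (Pool.Agent.Q55.tatePred (L i).G).add (h1 ‹_›) (h2 ‹_›)
    | smul r u _ h1 => exact (Pool.Agent.Q55.tatePred (L i).G).smul r (h1 ‹_›)
  rw [h1] at h2
  exact h2

omit hF in
/-- The common classes are HT classes. -/
lemma com_le_ht (i : ι) (X : 𝒱.Obj) :
    dimP (IsCommon D L) X ≤ dimP (IsHT (L i).C (L i).G) X := by
  refine Submodule.finrank_mono (Submodule.span_mono ?_)
  rintro c ⟨j, hc⟩
  exact ⟨j, hc.1, hc.2.2 i⟩

omit hF in
lemma toZero_of_le_right {s t t' : ℕ → ℕ} (h1 : ∀ n, s n ≤ t n) (h2 : ∀ n, t n ≤ t' n)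
    (h : RatioToZero s t) : RatioToZero s t' := by
  refine squeeze_zero (fun n => by positivity) (fun n => ?_) h
  rcases Nat.eq_zero_or_pos (t n) with h3 | h3
  · have h4 : s n = 0 := by have := h1 n; omega
    simp [h4]
  · have h4 : (0 : ℝ) < t n := by exact_mod_cast h3
    exact div_le_div_of_nonneg_left (Nat.cast_nonneg _) h4 (by exact_mod_cast h2 n)

/-- **The law for Tate classes.** -/
theorem tate_common (i : ι) (X : 𝒱.Obj) [Nontrivial (T.W.H X)] :
    (∀ n, TateFromCommon D L i (pw X n)) ∨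
      RatioToZero (fun n => dimP (IsCommon D L) (pw X n)) fun n => dimP (Tat (L i)) (pw X n) := by
  obtain ⟨τ⟩ := (L i).emb
  rcases t_law (L i).cyc (L i).G X τ with h | h
  · rcases ht_common D hF L i X with h' | h'
    · left
      intro n j c hc
      exact (Submodule.span_mono (Set.image_mono fun x hx => h' n j x hx) : _ ≤ _) (h n j c hc)
    · exact Or.inr (toZero_of_le_right (fun _ => com_le_ht D L i _) (fun _ => ht_le_tate L i _) h')
  · exact Or.inr (ToZero.of_le (fun _ => com_le_ht D L i _) h)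

lemma cyc_common (X : 𝒱.Obj) : cycRk ops X ≤ dimP (IsCommon D L) X := by
  have h := inf_cyc (T := toH T) (fam D hF L) X
  have h1 : (infPred (fam D hF L)).P = IsCommon D L := comP_P D hF L
  rw [h1] at h
  exact h

/-- The classes of cycles. -/
lemma cyc_of_common {X : 𝒱.Obj} {t : ℕ → ℕ}
    (h : RatioToZero (fun n => dimP (IsCommon D L) (pw X n)) t) :
    RatioToZero (fun n => cycRk ops (pw X n)) t :=
  ToZero.of_le (fun n => cyc_common D hF L _) h

/-! ### Algebraicity -/

omit hF

variable {D L}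

lemma alg_of_hodge {X : 𝒱.Obj} (h : HodgeConj T X) {j : ℕ} {c : T.W.H X}
    (hc : IsCommon D L X j c) : IsAlg T.W X j c := h j c hc.1

lemma alg_of_drb {X : 𝒱.Obj} (h : DRBConj D X) {j : ℕ} {c : T.W.H X}
    (hc : IsCommon D L X j c) : IsAlg T.W X j c := h j c hc.2.1

lemma alg_of_tate {X : 𝒱.Obj} {i : ι} (h : TateConj (L i).G X) {j : ℕ} {c : T.W.H X}
    (hc : IsCommon D L X j c) : IsAlg T.W X j c := by
  have h1 := h j _ (hc.2.2 i)
  change (L i).C.f X c ∈
    Submodule.span (L i).W.K {x | ∃ z, X.IsCyc j z ∧ (L i).W.cl X z = x} at h1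
  rw [← span_cyc (T := toH T) (C := (L i).C) (L i).cyc] at h1
  exact mem_of_C_mem (T := toH T) (C := (L i).C) h1

/-- All common classes on `X` are algebraic. -/
def ComAlg (D : DRStr T F) (L : ι → Ladic.{u, w} T) (X : 𝒱.Obj) : Prop :=
  ∀ j c, IsCommon D L X j c → IsAlg T.W X j c

lemma tate_of_alg {X : 𝒱.Obj} {i : ι} (h : TateFromCommon D L i X) (h' : ComAlg D L X) :
    TateConj (L i).G X := by
  intro j c hc
  have h1 := h j c hc
  change c ∈ Submodule.span (L i).W.K {x | ∃ z, X.IsCyc j z ∧ (L i).W.cl X z = x}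
  rw [← span_cyc (T := toH T) (C := (L i).C) (L i).cyc]
  exact (Submodule.span_mono (Set.image_mono fun x hx => h' j x hx) : _ ≤ _) h1

/-- The dimension of the space of Tate classes. -/
lemma tate_dim {X : 𝒱.Obj} {i : ι} (hF : ∀ x : ℂ, IsAlgebraic F x → x ∈ F)
    (h : TateFromCommon D L i X) :
    dimP (Tat (L i)) X = dimP (IsCommon D L) X := by
  have h1 := spanPred_dim (T := toH T) (C := (L i).C) (S := comP D hF L) (hC := (L i).cyc) X
  have h2 : {c : (L i).W.H X | ∃ j, IsTate (L i).G X j c} =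
      {c | ∃ j, (spanPred (T := toH T) (L i).C (L i).cyc (comP D hF L)).P X j c} := by
    ext c
    refine exists_congr fun j => ⟨fun hc => ?_, fun hc => ?_⟩
    · have h3 := h j c hc
      have h4 : {x | (comP D hF L).P X j x} = {x | IsCommon D L X j x} := by rw [comP_P]
      change c ∈ Submodule.span (L i).W.K ((L i).C.f X '' {x | (comP D hF L).P X j x})
      rw [h4]
      exact h3
    · have hc' : c ∈ Submodule.span (L i).W.K
        ((L i).C.f X '' {x | (comP D hF L).P X j x}) := hc
      induction hc' using Submodule.span_induction with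
      | mem x hx =>
        obtain ⟨x, hx, rfl⟩ := hx
        have hx' : (comP D hF L).P X j x := hx
        rw [comP_P] at hx'
        exact hx'.2.2 i
      | zero => exact (Pool.Agent.Q55.tatePred (L i).G).zero
      | add u v _ _ h1 h2 => exact (Pool.Agent.Q55.tatePred (L i).G).add (h1 ‹_›) (h2 ‹_›)
      | smul r u _ h1 => exact (Pool.Agent.Q55.tatePred (L i).G).smul r (h1 ‹_›)
  have h3 := (congrArg (fun s : Set ((L i).W.H X) => dimOf (L i).W s) h2).trans h1
  rw [comP_P] at h3
  exact h3

/-- Homological and numerical equivalence, or few algebraic classes modulo numerical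
equivalence. -/
lemma homNum_or (T : HodgeTheory ops) (X : 𝒱.Obj) [Nontrivial (T.W.H X)] {P : Cls T.W}
    (hP : ∀ X j z, X.IsCyc j z → P X j (T.W.cl X z)) : (∀ n, HomNum T (pw X n)) ∨
      RatioToZero (fun n => cycRk ops (pw X n)) fun n => dimP P (pw X n) := by
  rcases (algSys T.W).num_or (algSys T.W) (fun _ => le_rfl) X with h | h
  · exact Or.inl fun n => (homEqNum_iff (pw X n)).2 (h n)
  · right
    refine tendsto_zero_of_le fun N => ?_
    obtain ⟨n₀, hn₀⟩ := h N
    refine ⟨n₀, fun n hn => ?_⟩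
    have h1 := hn₀ n hn
    rw [numDim_eq_cycRank] at h1
    refine h1.trans (Submodule.finrank_mono (Submodule.span_mono ?_))
    intro x hx
    obtain ⟨j, z, hz, rfl⟩ := Set.mem_iUnion.1 hx
    exact ⟨j, hP _ j z hz⟩

end Pool.Agent.Q28.ZU
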