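import Pool.Agent.Q28.ZU.Law

/-!
# The main results on common classes
-/

open CategoryTheory AlgebraicGeometry Filter Topology

universe u w v

namespace Pool.Agent.Q28.ZU

open Module
open Pool.Agent.H914 Pool.Agent.H914.VarClass Pool.Agent.H914.VarClass.Obj
  Pool.Agent.H914.WeilCohomology
open Pool.Agent.Y121.AHS (HodgeTheory IsHodge RatioToZero)
open Pool.Agent.Y121 Pool.Agent.Y121.AHS
open Pool.Agent.Y133.Half
open Pool.Agent.Q55 (GaloisAction IsTate)
open Pool.Agent.Q57.DS (Cls IsAlg DRStr IsDRB dimP cycRk toGr drb_fun)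
open Pool.Agent.Q28.ZO

variable {k : Type u} [Field k] {𝒱 : VarClass k} {ops : CycleOps 𝒱}

variable {T : HodgeTheory ops} {F : Subfield ℂ} {ι : Type v}
  (D : DRStr T F) (hF : ∀ x : ℂ, IsAlgebraic F x → x ∈ F) (L : ι → Ladic.{u, w} T)
  (X : 𝒱.Obj) [Nontrivial (T.W.H X)]

include hF

/-- Positive proportion of the cycles among the de Rham-Betti classes. -/
theorem drb_pos (h : ¬ RatioToZero (fun n => cycRk ops (pw X n))
    fun n => dimP (IsDRB D) (pw X n)) :
    (∀ n, HomNum T (pw X n)) ∧ ∀ n, AreCommon D L (IsDRB D) (pw X n) := by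
  constructor
  · refine (homNum_or T X (P := IsDRB D) ?_).resolve_right h
    intro X j z hz
    rw [drb_fun]
    exact (fam D hF L none).R.cl hz
  · rcases drb_common D hF L X with h1 | h1
    · exact h1
    · exact absurd (cyc_of_common D hF L h1) h

/-- Positive proportion of the cycles among the Hodge classes. -/
theorem hodge_pos' (h : ¬ RatioToZero (fun n => cycRk ops (pw X n))
    fun n => dimP (IsHodge T) (pw X n)) : ∀ n, AreCommon D L (IsHodge T) (pw X n) := by
  rcases hodge_common D hF L X with h1 | h1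
  · exact h1
  · exact absurd (cyc_of_common D hF L h1) h

/-- Positive proportion of the cycles among the Tate classes. -/
theorem tate_pos {i : ι} (h : ¬ RatioToZero (fun n => cycRk ops (pw X n))
    fun n => dimP (Tat (L i)) (pw X n)) :
    (∀ n, HomNum T (pw X n)) ∧ ∀ n, TateFromCommon D L i (pw X n) := by
  constructor
  · have h1 : ¬ RatioToZero (fun n => cycRk ops (pw X n))
        fun n => dimP (IsCommon D L) (pw X n) := fun h1 =>
      h (toZero_of_le_right (fun _ => cyc_common D hF L _)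
        (fun _ => (com_le_ht D L i _).trans (ht_le_tate L i _)) h1)
    refine (homNum_or T X (P := IsCommon D L) ?_).resolve_right h1
    intro X j z hz
    rw [← comP_P D hF L]
    exact (comP D hF L).cl hz
  · rcases tate_common D hF L i X with h1 | h1
    · exact h1
    · exact absurd (cyc_of_common D hF L h1) h

/-- **The laws for de Rham-Betti classes.** -/
theorem drb_main :
    ((∀ n, AreCommon D L (IsDRB D) (pw X n)) ∨
      RatioToZero (fun n => dimP (IsCommon D L) (pw X n)) fun n => dimP (IsDRB D) (pw X n)) ∧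
    ((∀ n, HomNum T (pw X n) ∧ AreCommon D L (IsDRB D) (pw X n) ∧
        (HodgeConj T (pw X n) → DRBConj D (pw X n)) ∧
        ∀ i, TateConj (L i).G (pw X n) → DRBConj D (pw X n)) ∨
      RatioToZero (fun n => cycRk ops (pw X n)) fun n => dimP (IsDRB D) (pw X n)) ∧
    ((∀ n, (HodgeConj T (pw X n) ↔ DRBConj D (pw X n)) ∧
        ∀ i, (TateConj (L i).G (pw X n) ↔ DRBConj D (pw X n))) ∨
      RatioToZero (fun n => cycRk ops (pw X n)) (fun n => dimP (IsDRB D) (pw X n)) ∨
      RatioToZero (fun n => cycRk ops (pw X n)) (fun n => dimP (IsHodge T) (pw X n)) ∨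
      ∃ i, RatioToZero (fun n => cycRk ops (pw X n)) fun n => dimP (Tat (L i)) (pw X n)) := by
  refine ⟨drb_common D hF L X, ?_, ?_⟩
  · by_cases h : RatioToZero (fun n => cycRk ops (pw X n)) fun n => dimP (IsDRB D) (pw X n)
    · exact Or.inr h
    · left
      obtain ⟨h1, h2⟩ := drb_pos D hF L X h
      exact fun n => ⟨h1 n, h2 n, fun h3 j c hc => alg_of_hodge h3 (h2 n j c hc),
        fun i h3 j c hc => alg_of_tate h3 (h2 n j c hc)⟩
  · by_contra hcon
    push Not at hcon
    obtain ⟨⟨n, hn⟩, h1, h2, h3⟩ := hcon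
    obtain ⟨-, k1⟩ := drb_pos D hF L X h1
    have k2 := hodge_pos' D hF L X h2
    have k3 := fun i => (tate_pos D hF L X (h3 i)).2
    obtain ⟨i, hi⟩ := hn ⟨fun h4 j c hc => alg_of_hodge h4 (k1 n j c hc),
      fun h4 j c hc => alg_of_drb h4 (k2 n j c hc)⟩
    rcases hi with ⟨h4, h5⟩ | ⟨h4, h5⟩
    · exact h5 fun j c hc => alg_of_tate h4 (k1 n j c hc)
    · exact h4 (tate_of_alg (k3 i n) fun j c hc => alg_of_drb h5 hc)

/-- **The laws for Tate classes.** -/
theorem tate_main (i : ι) :
    ((∀ n, TateFromCommon D L i (pw X n)) ∨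
      RatioToZero (fun n => dimP (IsCommon D L) (pw X n)) fun n => dimP (Tat (L i)) (pw X n)) ∧
    ((∀ n, HomNum T (pw X n) ∧ TateFromCommon D L i (pw X n) ∧
        (HodgeConj T (pw X n) → TateConj (L i).G (pw X n)) ∧
        (DRBConj D (pw X n) → TateConj (L i).G (pw X n)) ∧
        ∀ i', TateConj (L i').G (pw X n) → TateConj (L i).G (pw X n)) ∨
      RatioToZero (fun n => cycRk ops (pw X n)) fun n => dimP (Tat (L i)) (pw X n)) ∧
    ∀ i', (∀ n, dimP (Tat (L i)) (pw X n) = dimP (Tat (L i')) (pw X n) ∧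
        (TateConj (L i).G (pw X n) ↔ TateConj (L i').G (pw X n))) ∨
      RatioToZero (fun n => cycRk ops (pw X n)) (fun n => dimP (Tat (L i)) (pw X n)) ∨
      RatioToZero (fun n => cycRk ops (pw X n)) fun n => dimP (Tat (L i')) (pw X n) := by
  refine ⟨tate_common D hF L i X, ?_, fun i' => ?_⟩
  · by_cases h : RatioToZero (fun n => cycRk ops (pw X n)) fun n => dimP (Tat (L i)) (pw X n)
    · exact Or.inr h
    · left
      obtain ⟨h1, h2⟩ := tate_pos D hF L X h
      exact fun n => ⟨h1 n, h2 n, fun h3 => tate_of_alg (h2 n) fun j c hc => alg_of_hodge h3 hc,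
        fun h3 => tate_of_alg (h2 n) fun j c hc => alg_of_drb h3 hc,
        fun i' h3 => tate_of_alg (h2 n) fun j c hc => alg_of_tate h3 hc⟩
  · by_cases h : RatioToZero (fun n => cycRk ops (pw X n)) fun n => dimP (Tat (L i)) (pw X n)
    · exact Or.inr (Or.inl h)
    by_cases h' : RatioToZero (fun n => cycRk ops (pw X n)) fun n => dimP (Tat (L i')) (pw X n)
    · exact Or.inr (Or.inr h')
    left
    intro n
    have h1 := (tate_pos D hF L X h).2 n
    have h2 := (tate_pos D hF L X h').2 n
    exact ⟨(tate_dim hF h1).trans (tate_dim hF h2).symm,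
      fun h3 => tate_of_alg h2 fun j c hc => alg_of_tate h3 hc,
      fun h3 => tate_of_alg h1 fun j c hc => alg_of_tate h3 hc⟩

end Pool.Agent.Q28.ZU
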